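import Pool.Agent.K1H50.PV.Stm2

/-! Project PV, job CMP: the main term of the weighted linear sieve is nearly the same for any two
regular densities (adaptation of `Pool.Agent.Y882.KW.lsw4`). -/

set_option autoImplicit false

open Finset

namespace Pool.Agent.K1H56.PV

open Pool.Agent.W23.DC
open Pool.Agent.Y882
open Pool.Agent.Y882.KW
open Pool.Agent.K1H50.PV (S_MMD S_MMC S_CMP)

theorem splitf (P : Finset ℕ) (t F : ℕ → ℝ) (x y z : ℝ) (hxy : x ≤ y) (hyz : y ≤ z)
    [DecidablePred (fun p => x ≤ t p ∧ t p < z)] [DecidablePred (fun p => x ≤ t p ∧ t p < y)]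
    [DecidablePred (fun p => y ≤ t p ∧ t p < z)] :
    ∑ p ∈ P.filter (fun p => x ≤ t p ∧ t p < z), F p =
      ∑ p ∈ P.filter (fun p => x ≤ t p ∧ t p < y), F p +
        ∑ p ∈ P.filter (fun p => y ≤ t p ∧ t p < z), F p := by
  rw [sum_filter, sum_filter, sum_filter, ← sum_add_distrib]
  apply sum_congr rfl
  intro p _
  by_cases h1 : x ≤ t p
  · by_cases h2 : t p < y
    · rw [if_pos ⟨h1, h2.trans_le hyz⟩, if_pos ⟨h1, h2⟩, if_neg (fun h => by linarith [h.1]),
        add_zero]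
    · by_cases h3 : t p < z
      · rw [if_pos ⟨h1, h3⟩, if_neg (fun h => h2 h.2), if_pos ⟨not_lt.1 h2, h3⟩, zero_add]
      · rw [if_neg (fun h => h3 h.2), if_neg (fun h => h2 h.2), if_neg (fun h => h3 h.2),
          zero_add]
  · rw [if_neg (fun h => h1 h.1), if_neg (fun h => h1 h.1), if_neg (fun h => by
      have := h.1
      exact h1 (hxy.trans this)), zero_add]

open Classical in
/-- two regular densities give nearly the same sums of nearly continuous functions -/
theorem cmpInt (P : Finset ℕ) (t g g' : ℕ → ℝ) (ε₁ ζ υ η : ℝ) (hεζ : ε₁ ≤ ζ)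
    (hζυ : ζ ≤ υ) (hg : ∀ p ∈ P, 0 ≤ g p) (hg' : ∀ p ∈ P, 0 ≤ g' p) (hM : Mer P t g ε₁ υ η)
    (hM' : Mer P t g' ε₁ υ η) (N : ℕ) (hN : 1 ≤ N) (h : ℝ → ℝ) (A δ : ℝ)
    (hA : ∀ x, ζ ≤ x → x ≤ υ → |h x| ≤ A)
    (hmod : ∀ x y, ζ ≤ x → x ≤ υ → ζ ≤ y → y ≤ υ → |x - y| ≤ (υ - ζ) / N →
      |h x - h y| ≤ δ) :
    |∑ q ∈ P.filter (fun p => ζ ≤ t p ∧ t p < υ), (g q - g' q) * h (t q)| ≤
      δ * ∑ q ∈ P.filter (fun p => ζ ≤ t p ∧ t p < υ), (g q + g' q) + N * (2 * η * A) := by
  have hN0 : (0 : ℝ) < N := by exact_mod_cast hN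
  set l : ℝ := (υ - ζ) / N with hl
  have hl0 : 0 ≤ l := div_nonneg (by linarith) hN0.le
  have hNl : N * l = υ - ζ := by rw [hl]; field_simp
  have key : ∀ k : ℕ, k ≤ N →
      |∑ q ∈ P.filter (fun p => ζ ≤ t p ∧ t p < ζ + k * l), (g q - g' q) * h (t q)| ≤
      δ * ∑ q ∈ P.filter (fun p => ζ ≤ t p ∧ t p < ζ + k * l), (g q + g' q) +
        k * (2 * η * A) := by
    intro k
    induction k with
    | zero =>
      intro _
      have h0 : P.filter (fun p => ζ ≤ t p ∧ t p < ζ + ((0 : ℕ) : ℝ) * l) = ∅ := by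
        rw [filter_eq_empty_iff]
        intro p _ hp
        simp only [Nat.cast_zero, zero_mul, add_zero] at hp
        linarith [hp.1, hp.2]
      rw [h0]
      simp
    | succ k ih =>
      intro hk
      have ih' := ih (by omega)
      have hkN : ((k : ℝ) + 1) ≤ N := by exact_mod_cast hk
      have hk0 : (0 : ℝ) ≤ k := Nat.cast_nonneg k
      set x : ℝ := ζ + k * l with hx
      set x' : ℝ := ζ + ((k + 1 : ℕ) : ℝ) * l with hx'
      have hxx : x' = x + l := by rw [hx, hx']; push_cast; ring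
      have hζx : ζ ≤ x := by
        have := mul_nonneg hk0 hl0
        linarith
      have hxυ : x' ≤ υ := by
        have : ((k + 1 : ℕ) : ℝ) * l ≤ N * l := by
          apply mul_le_mul_of_nonneg_right _ hl0
          push_cast
          exact hkN
        linarith
      have hxlex : x ≤ x' := by linarith
      rw [splitf P t (fun q => (g q - g' q) * h (t q)) ζ x x' hζx hxlex,
        splitf P t (fun q => g q + g' q) ζ x x' hζx hxlex]
      set Q := P.filter (fun p => x ≤ t p ∧ t p < x') with hQ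
      have e1 : ∑ q ∈ Q, (g q - g' q) * h (t q) =
          ∑ q ∈ Q, (g q - g' q) * (h (t q) - h x) + (∑ q ∈ Q, g q - ∑ q ∈ Q, g' q) * h x := by
        rw [← sum_sub_distrib, sum_mul, ← sum_add_distrib]
        apply sum_congr rfl
        intro q _
        ring
      have e2 : |∑ q ∈ Q, (g q - g' q) * (h (t q) - h x)| ≤ δ * ∑ q ∈ Q, (g q + g' q) := by
        rw [mul_sum]
        refine (abs_sum_le_sum_abs _ _).trans (sum_le_sum ?_)
        intro q hq
        rw [hQ, mem_filter] at hq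
        have a1 := hg q hq.1
        have a2 := hg' q hq.1
        rw [abs_mul, mul_comm]
        have a3 : |h (t q) - h x| ≤ δ := by
          apply hmod _ _ (by linarith [hq.2.1]) (by linarith [hq.2.2]) hζx (by linarith)
          rw [abs_le]
          constructor <;> linarith [hq.2.1, hq.2.2]
        have a4 : |g q - g' q| ≤ g q + g' q := by
          rw [abs_le]
          constructor <;> linarith
        calc |h (t q) - h x| * |g q - g' q| ≤ δ * |g q - g' q| :=
              mul_le_mul_of_nonneg_right a3 (abs_nonneg _)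
          _ ≤ δ * (g q + g' q) :=
              mul_le_mul_of_nonneg_left a4 ((abs_nonneg _).trans a3)
      have e3 : |(∑ q ∈ Q, g q - ∑ q ∈ Q, g' q) * h x| ≤ 2 * η * A := by
        have b1 := hM x x' (by linarith) hxlex hxυ
        have b2 := hM' x x' (by linarith) hxlex hxυ
        rw [← hQ] at b1 b2
        rw [abs_mul]
        have b3 : |∑ q ∈ Q, g q - ∑ q ∈ Q, g' q| ≤ 2 * η := by
          rw [abs_le] at b1 b2 ⊢
          constructor <;> linarith [b1.1, b1.2, b2.1, b2.2]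
        exact mul_le_mul b3 (hA x hζx (by linarith)) (abs_nonneg _) ((abs_nonneg _).trans b3)
      rw [e1]
      have e4 := abs_add_le (∑ q ∈ P.filter (fun p => ζ ≤ t p ∧ t p < x), (g q - g' q) * h (t q))
        (∑ q ∈ Q, (g q - g' q) * (h (t q) - h x) + (∑ q ∈ Q, g q - ∑ q ∈ Q, g' q) * h x)
      have e5 := abs_add_le (∑ q ∈ Q, (g q - g' q) * (h (t q) - h x))
        ((∑ q ∈ Q, g q - ∑ q ∈ Q, g' q) * h x)
      push_cast
      rw [mul_add]
      linarith
  have h1 := key N le_rfl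
  have h2 : ζ + (N : ℝ) * l = υ := by linarith
  rw [h2] at h1
  exact h1

open Classical in
/-- **CMP.** -/
theorem t_CMP (h1 : S_MMD) (h2' : S_MMC) : S_CMP := by
  intro τ ζ υ a b hζ h2 h4 hτ hζυ hυτ ha hb hab hJ
  obtain ⟨A0, F, f, hSF⟩ := Pool.Agent.W366.DC.SFX
  have hA0 := hSF.pos
  have hτ0 : 0 < τ := by linarith
  set s : ℝ := τ / ζ with hs
  have hs2 : 2 < s := by rw [hs, lt_div_iff₀ hζ]; exact h2
  have hs4 : s ≤ 4 := by rw [hs, div_le_iff₀ hζ]; exact h4
  have hF : 1 ≤ F s := hSF.F1 s (by linarith)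
  set c₂ : ℝ := Real.log (s - 1) / τ - ∫ x in ζ..υ, (a - b * x) / (τ - x) / x with hc₂
  have hc₂0 : 0 < c₂ := by rw [hc₂]; linarith
  refine ⟨A0 * c₂ / 2, by positivity, ?_⟩
  intro ε₁ hε₁ hεζ hετ η₀ hη₀
  have hε1 : ε₁ ≤ 1 := by linarith
  set Bd : ℝ := Real.log (υ / ζ) + 1 with hBd
  have hlogυ : 0 ≤ Real.log (υ / ζ) := Real.log_nonneg (by rw [le_div_iff₀ hζ]; linarith)
  have hBd0 : 0 < Bd := by linarith
  set η' : ℝ := min ε₁ (ε₁ * A0 * c₂ / (4 * (1 + a * Bd))) with hη'
  have hη'0 : 0 < η' := lt_min hε₁ (by positivity)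
  have hη'1 : η' ≤ ε₁ := min_le_left _ _
  have hη'2 : η' * (1 + a * Bd) ≤ ε₁ * A0 * c₂ / 4 := by
    have h := min_le_right ε₁ (ε₁ * A0 * c₂ / (4 * (1 + a * Bd)))
    rw [← hη', le_div_iff₀ (by positivity)] at h
    linarith
  obtain ⟨K, hK⟩ := exists_nat_ge (τ / ε₁)
  have hKτ : τ ≤ (K + 2) * ε₁ := by
    rw [div_le_iff₀ hε₁] at hK
    nlinarith
  obtain ⟨η₁, hη₁, H⟩ := Pool.Agent.W505.DC.MT Pool.Agent.W505.DC.MI A0 F f hSF ε₁
    η' K hε₁ hε1 hη'0
  obtain ⟨η₂, hη₂, H2⟩ := mid τ ζ υ a b hζ hζυ hυτ hτ (c₂ / 4) (by positivity) ε₁ hε₁ hεζ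
  -- the new constants
  obtain ⟨C, hC0, HD⟩ := h1 ε₁ K hε₁ hε1
  obtain ⟨η₃, hη₃, HC⟩ := h2' ε₁ (η₀ / (4 * (1 + a * Bd))) K hε₁ hε1 (by positivity)
  obtain ⟨N₀, hN₀⟩ := exists_nat_ge (8 * Bd * ((2 * a + b) * C) * (υ - ζ) / η₀)
  set Nn : ℕ := N₀ + 1 with hNn
  have hNn1 : 1 ≤ Nn := by omega
  have hNn0 : (0 : ℝ) < Nn := by exact_mod_cast hNn1
  have hNnl : 8 * Bd * ((2 * a + b) * C) * ((υ - ζ) / Nn) ≤ η₀ := by
    rw [div_le_iff₀ hη₀] at hN₀
    rw [← mul_div_assoc, div_le_iff₀ hNn0]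
    have : (N₀ : ℝ) * η₀ ≤ Nn * η₀ := by
      apply mul_le_mul_of_nonneg_right _ hη₀.le
      rw [hNn]
      push_cast
      linarith
    linarith
  set η₄ : ℝ := η₀ / (4 * (2 * Bd * (a * C) + Nn * (2 * (a * C)) + 1)) with hη₄
  have hη₄0 : 0 < η₄ := by positivity
  set ηη : ℝ := min (min (min η₁ η₂) 1) (min η₃ η₄) with hηη
  have hηη0 : 0 < ηη := lt_min (lt_min (lt_min hη₁ hη₂) one_pos) (lt_min hη₃ hη₄0)
  have hηη1 : ηη ≤ η₁ := (min_le_left _ _).trans ((min_le_left _ _).trans (min_le_left _ _))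
  have hηη2 : ηη ≤ η₂ := (min_le_left _ _).trans ((min_le_left _ _).trans (min_le_right _ _))
  have hηηo : ηη ≤ 1 := (min_le_left _ _).trans (min_le_right _ _)
  have hηη3 : ηη ≤ η₃ := (min_le_right _ _).trans (min_le_left _ _)
  have hηη4 : ηη ≤ η₄ := (min_le_right _ _).trans (min_le_right _ _)
  refine ⟨ηη, hηη0, ?_⟩
  intro Y hY
  have hY2 : (2 : ℝ) ≤ Y := by exact_mod_cast hY
  have hlY : 0 < Real.log Y := Real.log_pos (by linarith)
  set P := pr Y ε₁ ζ with hP
  set R := pr Y ζ υ with hR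
  have hmem : ∀ u v : ℝ, ∀ p ∈ pr Y u v, p.Prime ∧ u ≤ tt Y p ∧ tt Y p < v := by
    intro u v p hp
    unfold pr at hp
    rw [mem_filter] at hp
    exact hp.2
  have hPR : P ∪ R = pr Y ε₁ υ := by
    ext p
    rw [hP, hR]
    unfold pr
    rw [mem_union, mem_filter, mem_filter, mem_filter]
    constructor
    · rintro (⟨h1, h2, h3, h4⟩ | ⟨h1, h2, h3, h4⟩)
      · exact ⟨h1, h2, h3, h4.trans_le hζυ⟩
      · exact ⟨h1, h2, hεζ.trans h3, h4⟩
    · rintro ⟨h1, h2, h3, h4⟩
      rcases lt_or_ge (tt Y p) ζ with h | h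
      · exact Or.inl ⟨h1, h2, h3, h⟩
      · exact Or.inr ⟨h1, h2, h, h4⟩
  have hd : Disjoint P R := by
    rw [disjoint_left]
    intro p hp hp'
    have h1 := hmem _ _ p hp
    have h2 := hmem _ _ p hp'
    linarith [h1.2.2, h2.2.1]
  have hsiz : Siz P (tt Y) := by
    refine ⟨fun p hp => (hmem _ _ p hp).1, fun p hp => lt_of_lt_of_le hε₁ (hmem _ _ p hp).2.1, ?_⟩
    intro p hp q hq
    have hp0 : (0 : ℝ) < p := by exact_mod_cast (hmem _ _ p hp).1.pos
    unfold tt
    rw [div_lt_div_iff_of_pos_right hlY, Real.log_lt_log_iff hp0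
      (by exact_mod_cast (hmem _ _ q hq).1.pos)]
    exact Nat.cast_lt
  have ht0 : ∀ p, 0 ≤ tt Y p := by
    intro p
    unfold tt
    exact div_nonneg (Real.log_natCast_nonneg p) hlY.le
  set ta : ℕ → ℝ := fun q => τ - tt Y q with hta
  set za : ℕ → ℝ := fun q => min ζ (ta q) with hza
  have htaR : ∀ q ∈ R, ε₁ ≤ ta q ∧ 0 < ta q ∧ ta q ≤ 3 * za q ∧ ε₁ ≤ za q ∧ za q ≤ ta q ∧
      za q ≤ ζ ∧ ta q ≤ τ := by
    intro q hq
    have h1 := (hmem _ _ q hq).2
    have h3 : ta q = τ - tt Y q := rfl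
    have h5 : ε₁ ≤ ta q := by rw [h3]; linarith
    refine ⟨h5, by linarith, ?_, le_min hεζ h5, min_le_right _ _, min_le_left _ _,
      by rw [h3]; linarith [ht0 q]⟩
    rcases le_total ζ (ta q) with h | h
    · have : za q = ζ := min_eq_left h
      rw [this, h3]
      linarith
    · have : za q = ta q := min_eq_right h
      rw [this]
      linarith
  have hwR : ∀ q ∈ R, 0 ≤ a - b * tt Y q ∧ a - b * tt Y q ≤ a := by
    intro q hq
    have h1 := (hmem _ _ q hq).2
    constructor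
    · have : b * tt Y q ≤ b * υ := mul_le_mul_of_nonneg_left h1.2.le hb
      linarith
    · have : 0 ≤ b * tt Y q := mul_nonneg hb (ht0 q)
      linarith
  set cL1 : Finset ℕ → ℝ := fun T => if T ⊆ P then lc P (tt Y) K false τ ζ T else 0 with hcL1
  set cq : ℕ → Finset ℕ → ℝ := fun q T => if q ∈ T ∧ T.erase q ⊆ P then
    (a - b * tt Y q) * lc P (tt Y) K true (ta q) (za q) (T.erase q) else 0 with hcq
  have hVL1 : ∀ g : ℕ → ℝ, VV (pr Y ε₁ υ) cL1 g = VV P (lc P (tt Y) K false τ ζ) g := by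
    intro g
    rw [← hPR, hcL1, VV_part P R (lc P (tt Y) K false τ ζ) g]
  have hVq : ∀ q ∈ R, ∀ g : ℕ → ℝ, VV (pr Y ε₁ υ) (cq q) g =
      g q * ((a - b * tt Y q) * VV P (lc P (tt Y) K true (ta q) (za q)) g) := by
    intro q hq g
    rw [← hPR, hcq]
    rw [VV_one P R hd q hq (fun U => (a - b * tt Y q) * lc P (tt Y) K true (ta q) (za q) U) g]
    congr 1
    unfold VV
    rw [mul_sum]
    apply sum_congr rfl
    intro T _
    ring
  have hRf : (pr Y ε₁ υ).filter (fun p => ζ ≤ tt Y p ∧ tt Y p < υ) = R := by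
    ext p
    rw [mem_filter, ← hPR, mem_union]
    constructor
    · rintro ⟨h5 | h5, h6⟩
      · have := (hmem _ _ p h5).2.2
        exfalso
        linarith [h6.1]
      · exact h5
    · intro h5
      exact ⟨Or.inr h5, (hmem _ _ p h5).2⟩
  have hPε : ∀ p ∈ P, ε₁ ≤ tt Y p := fun p hp => (hmem _ _ p hp).2.1
  have hMP : ∀ g : ℕ → ℝ, Mer (pr Y ε₁ υ) (tt Y) g ε₁ υ ηη → Mer P (tt Y) g ε₁ ζ ηη := by
    intro g hM x y hx hxy hy
    have h1 := hM x y hx hxy (hy.trans hζυ)
    have h3 : P.filter (fun p => x ≤ tt Y p ∧ tt Y p < y) =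
        (pr Y ε₁ υ).filter (fun p => x ≤ tt Y p ∧ tt Y p < y) := by
      ext p
      rw [mem_filter, mem_filter, ← hPR, mem_union]
      constructor
      · rintro ⟨h5, h6⟩
        exact ⟨Or.inl h5, h6⟩
      · rintro ⟨h5 | h5, h6⟩
        · exact ⟨h5, h6⟩
        · have := (hmem _ _ p h5).2.1
          exfalso
          linarith [h6.2]
    rw [h3]
    exact h1
  have hBdR : ∀ g : ℕ → ℝ, Mer (pr Y ε₁ υ) (tt Y) g ε₁ υ ηη → ∑ q ∈ R, g q ≤ Bd := by
    intro g hM
    have h13 := hM ζ υ hεζ hζυ le_rfl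
    rw [hRf, abs_le] at h13
    linarith [h13.2]
  have hVV : ∀ g : ℕ → ℝ, VV (pr Y ε₁ υ) (fun T => cL1 T - ∑ q ∈ R, cq q T) g =
      MM P (tt Y) g K false τ ζ -
        ∑ q ∈ R, g q * ((a - b * tt Y q) * MM P (tt Y) g K true (ta q) (za q)) := by
    intro g
    rw [VV_sub, VV_sum, hVL1, lc_V _ _ hsiz K false τ ζ hτ0.le (fun _ => h2.le)]
    congr 1
    apply sum_congr rfl
    intro q hq
    rw [hVq q hq, lc_V _ _ hsiz K true (ta q) (za q) (htaR q hq).2.1.le
      (fun h => by simp at h)]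
  refine ⟨fun T => cL1 T - ∑ q ∈ R, cq q T, ?_, ?_, ?_, ?_, ?_⟩
  · intro T
    have h3 : |cL1 T| ≤ 1 := by
      simp only [hcL1]
      split_ifs
      · exact lc_le _ _ hsiz K false τ ζ hτ0.le (fun _ => h2.le) T
      · simp
    have h5 : |∑ q ∈ R, cq q T| ≤ a := by
      by_cases hex : ∃ q ∈ R, q ∈ T ∧ T.erase q ⊆ P
      · obtain ⟨q, hq, hqT, hqP⟩ := hex
        rw [sum_eq_single q]
        · simp only [hcq]
          rw [if_pos ⟨hqT, hqP⟩, abs_mul, abs_of_nonneg (hwR q hq).1]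
          calc (a - b * tt Y q) * |lc P (tt Y) K true (ta q) (za q) (T.erase q)| ≤
              a * 1 := by
                apply mul_le_mul (hwR q hq).2 _ (abs_nonneg _) ha
                exact lc_le _ _ hsiz K true _ _ (htaR q hq).2.1.le (fun h => by simp at h) _
            _ = a := mul_one a
        · intro q' hq' hne
          simp only [hcq]
          rw [if_neg]
          rintro ⟨h6, -⟩
          have h7 : q' ∈ T.erase q := mem_erase.2 ⟨hne, h6⟩
          exact (disjoint_left.1 hd) (hqP h7) hq'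
        · intro h; exact absurd hq h
      · push Not at hex
        rw [sum_eq_zero]
        · rw [abs_zero]; exact ha
        · intro q hq
          simp only [hcq]
          rw [if_neg]
          rintro ⟨h6, h7⟩
          exact hex q hq h6 h7
    calc |cL1 T - ∑ q ∈ R, cq q T| ≤ |cL1 T| + |∑ q ∈ R, cq q T| := abs_sub _ _
      _ ≤ 1 + a := by linarith
  · intro T hT hne
    -- size of the products of subsets of `P`
    have hsize : ∀ (U : Finset ℕ) (b' : Bool) (τ₁ ζ₁ : ℝ), U ⊆ P → 0 ≤ τ₁ →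
        (b' = false → 2 * ζ₁ ≤ τ₁) → lc P (tt Y) K b' τ₁ ζ₁ U ≠ 0 →
        ∑ p ∈ U, tt Y p ≤ τ₁ := by
      intro U b' τ₁ ζ₁ hU hτ₁ hb' hne'
      have hE := lc_EE _ _ hsiz K b' τ₁ ζ₁ hτ₁ hb' U hne'
      have h5 := EE_sz _ _ hsiz ht0 τ₁ ζ₁ hτ₁ _ hE
      unfold sz at h5
      rwa [Nat.primeFactors_prod (fun p hp => (hmem _ _ p (hU hp)).1)] at h5
    have hTp : ∀ p ∈ T, p.Prime := fun p hp => (hmem _ _ p (hT hp)).1
    have hfin : ∑ p ∈ T, tt Y p ≤ τ := by
      have h := hne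
      by_cases h1 : cL1 T = 0
      · have h3 : ∑ q ∈ R, cq q T ≠ 0 := by
          intro h5
          apply h
          show cL1 T - ∑ q ∈ R, cq q T = 0
          rw [h1, h5, sub_zero]
        obtain ⟨q, hq, hq2⟩ := exists_ne_zero_of_sum_ne_zero h3
        simp only [hcq] at hq2
        split_ifs at hq2 with h6
        · have h7 := right_ne_zero_of_mul hq2
          have h8 := hsize (T.erase q) true (ta q) (za q) h6.2 (htaR q hq).2.1.le
            (fun h => by simp at h) h7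
          rw [← add_sum_erase _ _ h6.1]
          have h9 : ta q = τ - tt Y q := rfl
          rw [h9] at h8
          linarith
        · exact absurd rfl hq2
      · simp only [hcL1] at h1
        split_ifs at h1 with h'
        · exact hsize T false τ ζ h' hτ0.le (fun _ => h2.le) h1
        · exact absurd rfl h1
    unfold tt at hfin
    rw [← sum_div, div_le_iff₀ hlY] at hfin
    have hp0 : ∀ p ∈ T, (p : ℝ) ≠ 0 := by
      intro p hp
      have := (hTp p hp).ne_zero
      exact_mod_cast this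
    have h6 : Real.log ((∏ p ∈ T, p : ℕ) : ℝ) = ∑ p ∈ T, Real.log p := by
      push_cast
      rw [Real.log_prod hp0]
    rw [← h6] at hfin
    have hpos : (0 : ℝ) < ((∏ p ∈ T, p : ℕ) : ℝ) := by
      have : 0 < ∏ p ∈ T, p := prod_pos fun p hp => (hTp p hp).pos
      exact_mod_cast this
    rw [← Real.log_le_log_iff hpos (by positivity), Real.log_rpow (by linarith)]
    exact hfin
  · intro N
    set ind : ℕ → ℝ := fun p => if p ∣ N then 1 else 0 with hind
    rw [VV_sub, VV_sum, hVL1]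
    have h1 := (lc_ind P (tt Y) hsiz K τ ζ hτ0.le h2.le (fun p hp => (hmem _ _ p hp).2.2) N).1
    unfold WB
    rw [← hP, ← hR, mul_sub, mul_one, mul_sum]
    apply sub_le_sub h1
    apply sum_le_sum
    intro q hq
    rw [hVq q hq]
    have h3 := lc_ind_up P (tt Y) hsiz K (ta q) (za q) (htaR q hq).2.1.le N
    have h5 : (0 : ℝ) ≤ if q ∣ N then 1 else 0 := by split_ifs <;> norm_num
    calc (if ∀ p ∈ P, ¬ p ∣ N then (1 : ℝ) else 0) * ((a - b * tt Y q) * (if q ∣ N then 1 else 0)) =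
        (if q ∣ N then 1 else 0) * ((a - b * tt Y q) * (if ∀ p ∈ P, ¬ p ∣ N then (1 : ℝ) else 0)) := by
          ring
      _ ≤ ind q * ((a - b * tt Y q) * VV P (lc P (tt Y) K true (ta q) (za q)) ind) := by
          apply mul_le_mul_of_nonneg_left _ h5
          exact mul_le_mul_of_nonneg_left h3 (hwR q hq).1
  · intro g hg hM
    have hgP : ∀ p ∈ P, 0 ≤ g p := fun p hp => hg p (by rw [← hPR]; exact mem_union_left _ hp)
    have hgR : ∀ p ∈ R, 0 ≤ g p := fun p hp => hg p (by rw [← hPR]; exact mem_union_right _ hp)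
    have hM1 : Mer P (tt Y) g ε₁ ζ η₁ := fun x y hx hxy hy =>
      (hMP g hM x y hx hxy hy).trans hηη1
    have hM2 : Mer (pr Y ε₁ υ) (tt Y) g ε₁ υ η₂ := fun x y hx hxy hy =>
      (hM x y hx hxy hy).trans hηη2
    have h7 := H P (tt Y) g ζ (by linarith) hgP hPε hM1 K le_rfl
      τ ζ hKτ hεζ le_rfl (by linarith) hτ
    rw [hVV]
    have h8 := h7.2 h2.le
    rw [← hs, hSF.f4 s hs2.le hs4] at h8
    have e1 : ε₁ / ζ * (A0 * Real.log (s - 1) / s) = ε₁ * A0 * (Real.log (s - 1) / τ) := by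
      rw [hs]
      field_simp
    rw [e1] at h8
    have h9 : ∑ q ∈ R, g q * ((a - b * tt Y q) * MM P (tt Y) g K true (ta q) (za q)) ≤
        ε₁ * A0 * (∑ q ∈ R, g q * ((a - b * tt Y q) / (τ - tt Y q))) + η' * (a * ∑ q ∈ R, g q) := by
      rw [mul_sum, mul_sum, mul_sum, ← sum_add_distrib]
      apply sum_le_sum
      intro q hq
      obtain ⟨t1, t2, t3, t4, t5, t6, t7⟩ := htaR q hq
      have h10 := (H P (tt Y) g ζ (by linarith) hgP hPε hM1 K le_rfl
        (ta q) (za q) (by linarith) t4 t6 t5 (by linarith)).1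
      have hz0 : 0 < za q := by linarith
      rw [hSF.F3 (ta q / za q) (by rw [le_div_iff₀ hz0]; linarith)
        (by rw [div_le_iff₀ hz0]; exact t3)] at h10
      have e2 : ε₁ / za q * (A0 / (ta q / za q)) = ε₁ * A0 / ta q := by
        field_simp
      rw [e2] at h10
      have hw := hwR q hq
      have hgq := hgR q hq
      calc g q * ((a - b * tt Y q) * MM P (tt Y) g K true (ta q) (za q)) ≤
          g q * ((a - b * tt Y q) * (ε₁ * A0 / ta q + η')) := by
            apply mul_le_mul_of_nonneg_left _ hgq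
            exact mul_le_mul_of_nonneg_left h10 hw.1
        _ = ε₁ * A0 * (g q * ((a - b * tt Y q) / ta q)) + (a - b * tt Y q) * (g q * η') := by ring
        _ ≤ ε₁ * A0 * (g q * ((a - b * tt Y q) / (τ - tt Y q))) + η' * (a * g q) := by
            have : (a - b * tt Y q) * (g q * η') ≤ a * (g q * η') :=
              mul_le_mul_of_nonneg_right hw.2 (by positivity)
            have e3 : ta q = τ - tt Y q := rfl
            rw [e3]
            linarith
    have h11 := H2 (pr Y ε₁ υ) (tt Y) g hg hM2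
    rw [hRf] at h11
    have h12 := hBdR g hM
    have h15 : ε₁ * A0 * (∑ q ∈ R, g q * ((a - b * tt Y q) / (τ - tt Y q))) ≤
        ε₁ * A0 * ((∫ x in ζ..υ, (a - b * x) / (τ - x) / x) + c₂ / 4) :=
      mul_le_mul_of_nonneg_left h11 (by positivity)
    have h16 : η' * (a * ∑ q ∈ R, g q) ≤ η' * (a * Bd) := by
      apply mul_le_mul_of_nonneg_left _ hη'0.le
      exact mul_le_mul_of_nonneg_left h12 ha
    have h17 : ε₁ * A0 * (Real.log (s - 1) / τ) =
        ε₁ * A0 * c₂ + ε₁ * A0 * (∫ x in ζ..υ, (a - b * x) / (τ - x) / x) := by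
      rw [hc₂]; ring
    linarith
  · intro g g' hg hg' hM hM'
    have hgP : ∀ p ∈ P, 0 ≤ g p := fun p hp => hg p (by rw [← hPR]; exact mem_union_left _ hp)
    have hgP' : ∀ p ∈ P, 0 ≤ g' p := fun p hp => hg' p (by rw [← hPR]; exact mem_union_left _ hp)
    have hgR : ∀ p ∈ R, 0 ≤ g p := fun p hp => hg p (by rw [← hPR]; exact mem_union_right _ hp)
    have hM1 := hMP g hM
    have hM1' := hMP g' hM'
    have hM3 : Mer P (tt Y) g ε₁ ζ η₃ := fun x y hx hxy hy => (hM1 x y hx hxy hy).trans hηη3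
    have hM3' : Mer P (tt Y) g' ε₁ ζ η₃ := fun x y hx hxy hy => (hM1' x y hx hxy hy).trans hηη3
    set κ : ℝ := η₀ / (4 * (1 + a * Bd)) with hκ
    have hκ0 : 0 < κ := by positivity
    have hκe : κ * (1 + a * Bd) = η₀ / 4 := by
      rw [hκ]
      field_simp
    have hζ1 : ζ ≤ 1 := by linarith
    have hcmp : ∀ (bo : Bool) (x z : ℝ), z ≤ ζ →
        |MM P (tt Y) g K bo x z - MM P (tt Y) g' K bo x z| ≤ κ := fun bo x z hz =>
      HC P (tt Y) g g' ζ hζ1 hgP hgP' hPε hM3 hM3' K le_rfl bo x z hz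
    have hdd := HD ηη hηη0.le hηηo P (tt Y) g' ζ hζ1 hgP' hPε hM1' K le_rfl true
    set hh : ℝ → ℝ := fun x => (a - b * x) * MM P (tt Y) g' K true (τ - x) (min ζ (τ - x)) with hhh
    have hbx : ∀ x, ζ ≤ x → x ≤ υ → 0 ≤ a - b * x ∧ a - b * x ≤ a := by
      intro x hx hx'
      have h5 : b * x ≤ b * υ := mul_le_mul_of_nonneg_left hx' hb
      have h6 : 0 ≤ b * x := mul_nonneg hb (by linarith)
      constructor <;> linarith
    set l : ℝ := (υ - ζ) / Nn with hl
    have hl0 : 0 ≤ l := div_nonneg (by linarith) hNn0.le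
    set δ : ℝ := a * (C * (2 * l + ηη)) + b * l * C with hδ
    have hI := cmpInt (pr Y ε₁ υ) (tt Y) g g' ε₁ ζ υ ηη hεζ hζυ hg hg' hM hM' Nn hNn1 hh (a * C) δ
      (by
        intro x hx hx'
        rw [hhh]
        show |(a - b * x) * MM P (tt Y) g' K true (τ - x) (min ζ (τ - x))| ≤ a * C
        rw [abs_mul, abs_of_nonneg (hbx x hx hx').1]
        exact mul_le_mul (hbx x hx hx').2
          (hdd (τ - x) (min ζ (τ - x)) 0 ζ (min_le_left _ _) le_rfl).1 (abs_nonneg _) ha)
      (by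
        intro x y hx hx' hy hy' hxy
        have h5 := (hdd (τ - x) (min ζ (τ - x)) (τ - y) (min ζ (τ - y)) (min_le_left _ _)
          (min_le_left _ _)).2
        have h6 := (hdd (τ - y) (min ζ (τ - y)) 0 ζ (min_le_left _ _) le_rfl).1
        have h7 : |(τ - x) - (τ - y)| ≤ l := by
          have : (τ - x) - (τ - y) = -(x - y) := by ring
          rw [this, abs_neg]
          exact hxy
        have h8 : |min ζ (τ - x) - min ζ (τ - y)| ≤ l := by
          refine le_trans ?_ h7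
          have := abs_min_sub_min_le_max ζ (τ - x) ζ (τ - y)
          rw [sub_self, abs_zero] at this
          exact this.trans (max_le (abs_nonneg _) le_rfl)
        show |(a - b * x) * MM P (tt Y) g' K true (τ - x) (min ζ (τ - x)) -
          (a - b * y) * MM P (tt Y) g' K true (τ - y) (min ζ (τ - y))| ≤ δ
        set u := MM P (tt Y) g' K true (τ - x) (min ζ (τ - x)) with hu
        set v := MM P (tt Y) g' K true (τ - y) (min ζ (τ - y)) with hv
        have e : (a - b * x) * u - (a - b * y) * v = (a - b * x) * (u - v) + b * (y - x) * v := by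
          ring
        rw [e]
        refine (abs_add_le _ _).trans ?_
        rw [hδ, abs_mul, abs_mul, abs_mul, abs_of_nonneg (hbx x hx hx').1, abs_of_nonneg hb]
        apply add_le_add
        · apply mul_le_mul (hbx x hx hx').2 _ (abs_nonneg _) ha
          refine h5.trans ?_
          apply mul_le_mul_of_nonneg_left _ hC0.le
          linarith
        · apply mul_le_mul _ h6 (abs_nonneg _) (by positivity)
          apply mul_le_mul_of_nonneg_left _ hb
          rw [abs_sub_comm]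
          exact hxy)
    rw [hRf] at hI
    have h12 := hBdR g hM
    have h12' := hBdR g' hM'
    have h13 : ∑ q ∈ R, (g q + g' q) ≤ 2 * Bd := by
      rw [sum_add_distrib]
      linarith
    have hδ0 : 0 ≤ δ := by positivity
    have h14 : δ * ∑ q ∈ R, (g q + g' q) ≤ δ * (2 * Bd) := mul_le_mul_of_nonneg_left h13 hδ0
    have h15 : ηη * (2 * Bd * (a * C) + Nn * (2 * (a * C)) + 1) ≤ η₀ / 4 := by
      have h16 : η₄ * (2 * Bd * (a * C) + Nn * (2 * (a * C)) + 1) = η₀ / 4 := by
        rw [hη₄]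
        field_simp
      rw [← h16]
      exact mul_le_mul_of_nonneg_right hηη4 (by positivity)
    have h17 : δ * (2 * Bd) + Nn * (2 * ηη * (a * C)) ≤ η₀ / 2 := by
      have h18 : δ * (2 * Bd) + Nn * (2 * ηη * (a * C)) =
          (2 * Bd * ((2 * a + b) * C) * l) + ηη * (2 * Bd * (a * C) + Nn * (2 * (a * C))) := by
        rw [hδ]
        ring
      rw [h18]
      have h19 : 8 * Bd * ((2 * a + b) * C) * l ≤ η₀ := hNnl
      linarith
    have h20 : |∑ q ∈ R, (g q - g' q) * hh (tt Y q)| ≤ η₀ / 2 := by linarith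
    rw [hVV, hVV]
    have e1 : (MM P (tt Y) g K false τ ζ -
          ∑ q ∈ R, g q * ((a - b * tt Y q) * MM P (tt Y) g K true (ta q) (za q))) -
        (MM P (tt Y) g' K false τ ζ -
          ∑ q ∈ R, g' q * ((a - b * tt Y q) * MM P (tt Y) g' K true (ta q) (za q))) =
        (MM P (tt Y) g K false τ ζ - MM P (tt Y) g' K false τ ζ) -
        (∑ q ∈ R, g q * ((a - b * tt Y q) * (MM P (tt Y) g K true (ta q) (za q) -
          MM P (tt Y) g' K true (ta q) (za q)))) - ∑ q ∈ R, (g q - g' q) * hh (tt Y q) := by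
      have e2 : ∑ q ∈ R, g q * ((a - b * tt Y q) * MM P (tt Y) g K true (ta q) (za q)) =
          (∑ q ∈ R, g q * ((a - b * tt Y q) * (MM P (tt Y) g K true (ta q) (za q) -
          MM P (tt Y) g' K true (ta q) (za q)))) + ∑ q ∈ R, (g q - g' q) * hh (tt Y q) +
          ∑ q ∈ R, g' q * ((a - b * tt Y q) * MM P (tt Y) g' K true (ta q) (za q)) := by
        rw [← sum_add_distrib, ← sum_add_distrib]
        apply sum_congr rfl
        intro q _
        show _ = _ + (g q - g' q) * ((a - b * tt Y q) * MM P (tt Y) g' K true (ta q) (za q)) + _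
        ring
      rw [e2]
      ring
    rw [e1]
    have h21 : |∑ q ∈ R, g q * ((a - b * tt Y q) * (MM P (tt Y) g K true (ta q) (za q) -
          MM P (tt Y) g' K true (ta q) (za q)))| ≤ κ * (a * Bd) := by
      refine (abs_sum_le_sum_abs _ _).trans ?_
      calc ∑ q ∈ R, |g q * ((a - b * tt Y q) * (MM P (tt Y) g K true (ta q) (za q) -
            MM P (tt Y) g' K true (ta q) (za q)))| ≤ ∑ q ∈ R, g q * (a * κ) := by
            apply sum_le_sum
            intro q hq
            rw [abs_mul, abs_mul, abs_of_nonneg (hgR q hq), abs_of_nonneg (hwR q hq).1]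
            apply mul_le_mul_of_nonneg_left _ (hgR q hq)
            exact mul_le_mul (hwR q hq).2 (hcmp true (ta q) (za q) (htaR q hq).2.2.2.2.2.1)
              (abs_nonneg _) ha
        _ = (∑ q ∈ R, g q) * (a * κ) := by rw [sum_mul]
        _ ≤ Bd * (a * κ) := mul_le_mul_of_nonneg_right h12 (by positivity)
        _ = κ * (a * Bd) := by ring
    have h22 := hcmp false τ ζ le_rfl
    have h23 := abs_sub (MM P (tt Y) g K false τ ζ - MM P (tt Y) g' K false τ ζ -
        (∑ q ∈ R, g q * ((a - b * tt Y q) * (MM P (tt Y) g K true (ta q) (za q) -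
          MM P (tt Y) g' K true (ta q) (za q))))) (∑ q ∈ R, (g q - g' q) * hh (tt Y q))
    have h24 := abs_sub (MM P (tt Y) g K false τ ζ - MM P (tt Y) g' K false τ ζ)
        (∑ q ∈ R, g q * ((a - b * tt Y q) * (MM P (tt Y) g K true (ta q) (za q) -
          MM P (tt Y) g' K true (ta q) (za q))))
    have h25 : κ + κ * (a * Bd) = η₀ / 4 := by rw [← hκe]; ring
    linarith

end Pool.Agent.K1H56.PV
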